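import Pool.Agent.H.MP_99e598_lc.B

set_option autoImplicit false

/-! Paths through a fixed bushy tree that compute no random set. -/

namespace Pool.Agent.H.MP_b653e9_lc

open Filter Pool.Agent.H.MP_fa2eca_lc Pool.Agent.Lib.helper21 Encodable MeasureTheory
open Pool.Agent.Lib.helper21.PR Finset Pool.Agent.Lib.helper21.ML Pool.Agent.H.MP_99e598_lc
open scoped ENNReal

attribute [local irreducible] Primrec Computable

theorem unif {α β : Type} [Primcodable α] [Primcodable β] [Inhabited β] {Q : α → β → Prop}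
    (h : RE fun z : α × β => Q z.1 z.2) : ∃ Q' : α → β → Prop, (RE fun z : α × β => Q' z.1 z.2) ∧
      (∀ a b, Q' a b → Q a b) ∧ (∀ a b b', Q' a b → Q' a b' → b = b') ∧
        ∀ a b, Q a b → ∃ b', Q' a b' := by
  classical
  obtain ⟨N, h1, h2, -, h3⟩ := re_bool (r_pw h).re
  let M : α → ℕ → Bool := fun a u => N (a, (decode u.unpair.1).getD default) u.unpair.2
  have hM : Primrec fun z : α × ℕ => M z.1 z.2 := by unfold M; fun_prop
  refine ⟨fun a b => ∃ u, M a u ∧ (∀ v < u, ¬ M a v) ∧ (decode u.unpair.1).getD default = b,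
    RE.un (RE.re (by clear_value M; fun_prop)), fun a b ⟨u, k, _, e⟩ => e ▸ h2 _ _ k,
    fun a b b' ⟨u, a1, a2, a3⟩ ⟨v, b1, b2, b3⟩ => ?_, fun a b k => ?_⟩
  · rw [← a3, ← b3, le_antisymm (not_lt.1 fun c => a2 _ c b1) (not_lt.1 fun c => b2 _ c a1)]
  · obtain ⟨t, ht⟩ := h3 (a, b) k
    have : ∃ u, M a u := ⟨Nat.pair (encode b) t, by simpa [M] using ht⟩
    exact ⟨_, _, Nat.find_spec this, fun _ => Nat.find_min this, rfl⟩

theorem quarter {m n n' : ℕ} {E : (ℕ → Bool) → Prop} (h : Fn.Loc m E) (h1 : m ≤ n) (h2 : n < n') :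
    Fn.mu.real {Z | E Z ∧ (Z n = true ∨ Z n' = false)} = 3 / 4 * Fn.mu.real {Z | E Z} := by
  have i : ProbabilityTheory.iIndepFun (fun i (Z : ℕ → Bool) => Z i) Fn.mu :=
    ProbabilityTheory.iIndepFun_infinitePi (X := fun _ b => b) fun _ => measurable_id
  have a := (i.indepFun_finset (range m) {n, n'} (by simp; omega) fun _ =>
    measurable_pi_apply _).measure_inter_preimage_eq_mul
      {x | ∃ Z, E Z ∧ ∀ i : range m, Z i = x i} {x | ∀ i, x i = decide (i.1 = n')}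
      (Set.toFinite _).measurableSet (Set.toFinite _).measurableSet
  have b : (fun (Z : ℕ → Bool) (i : range m) => Z i) ⁻¹' {x | ∃ Z, E Z ∧ ∀ i : range m, Z i = x i} =
      {Z | E Z} := Set.ext fun Z => ⟨fun ⟨_, k, e⟩ => h _ _ (fun i hi => e ⟨i, mem_range.2 hi⟩) k,
        fun k => ⟨Z, k, fun _ => rfl⟩⟩
  have c : (fun (Z : ℕ → Bool) (i : ({n, n'} : Finset ℕ)) => Z i) ⁻¹'
      {x | ∀ i, x i = decide (i.1 = n')} = {Z | ∀ i ∈ ({n, n'} : Finset ℕ), Z i = decide (i = n')} :=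
    Set.ext fun Z => Subtype.forall
  rw [b, c, Fn.mu_cyl, card_pair h2.ne] at a
  have d : {Z | E Z ∧ (Z n = true ∨ Z n' = false)} =
      {Z | E Z} \ {Z | ∀ i ∈ ({n, n'} : Finset ℕ), Z i = decide (i = n')} :=
    Set.ext fun Z => by simp [h2.ne]; cases Z n <;> simp
  have e := measureReal_inter_add_diff (μ := Fn.mu) (s := {Z | E Z}) (Fn.Loc.closed (s := n' + 1)
    (S := fun Z => ∀ i ∈ ({n, n'} : Finset ℕ), Z i = decide (i = n')) fun Z Z' e k i hi =>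
      (e i (by simp at hi; omega)).symm.trans (k i hi)).measurableSet
  rw [Measure.real, a, ENNReal.toReal_mul, ← Measure.real, ← d] at e
  norm_num at e
  linarith

variable {T S : List ℕ → Prop} {p : ℕ → ℕ} {σ : List ℕ}

theorem idem (h : Big T p (Big T p S) σ) : Big T p S σ := by
  induction h with
  | base h => exact h
  | step F h1 h2 _ ih => exact .step F h1 h2 ih

theorem inT (h : Big T p S σ) : T σ → Big T p (fun τ => T τ ∧ S τ) σ := by
  induction h with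
  | base h => exact fun k => .base ⟨k, h⟩
  | step F h1 h2 _ ih => exact fun _ => .step F h1 h2 fun a ha => ih a ha (h2 a ha)

def Ev (e : ℕ) (P : List (ℕ × ℕ)) (τ : List ℕ) : Prop :=
  ∀ a ∈ P, V (e.pair (encode (a.1, true))) τ ∨ V (e.pair (encode (a.2, false))) τ

theorem shrink (hp : ∀ l, 0 < p l) (h0 : T σ) (h1 : ¬ Big T p S σ) {e : ℕ}
    (h : ∀ n : ℕ, ∀ τ, σ <+: τ → T τ → Big T (fun l => p l + p l + p l) (fun ρ => S ρ ∨
      V (e.pair (encode (n, true))) ρ ∨ V (e.pair (encode (n, false))) ρ) τ) (i : ℕ) :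
    ∃ (P : List (ℕ × ℕ)) (m : ℕ), (∀ a ∈ P, a.1 < m ∧ a.2 < m) ∧
      Fn.mu.real {Z | ∀ a ∈ P, Z a.1 = true ∨ Z a.2 = false} ≤ (3 / 4) ^ i ∧
        Big T p (fun τ => (T τ ∧ ¬ Big T p S τ) ∧ Ev e P τ) σ := by
  classical
  induction i with
  | zero => exact ⟨[], 0, by simp, by simp, .base ⟨⟨h0, h1⟩, by simp [Ev]⟩⟩
  | succ i ih =>
    obtain ⟨P, m, a1, a2, a3⟩ := ih
    obtain ⟨L, a4, a5, a6⟩ := (big_iff hp).1 a3
    let B : ℕ → Bool → List ℕ → Prop := fun n b => Big T p fun ρ =>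
      (T ρ ∧ ¬ Big T p S ρ) ∧ V (e.pair (encode (n, b))) ρ
    have b0 : ∀ n, ∀ τ ∈ L, B n true τ ∨ B n false τ := fun n τ hτ => by
      rcases ((inT (h n τ (a5 τ hτ).1 (a5 τ hτ).2.1.1) (a5 τ hτ).2.1.1).mono (fun _ k => k)
        (fun _ _ => le_rfl) (S' := fun ρ => (((T ρ ∧ ¬ Big T p S ρ) ∧ V (e.pair (encode (n, true))) ρ)
          ∨ (T ρ ∧ ¬ Big T p S ρ) ∧ V (e.pair (encode (n, false))) ρ) ∨ Big T p S ρ)
        fun ρ _ k => (em _).symm.imp_left fun c => (k.2.resolve_left fun d => c (.base d)).imp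
          (fun d => ⟨⟨k.1, c⟩, d⟩) fun d => ⟨⟨k.1, c⟩, d⟩).or with k | k
      · exact k.or
      · exact absurd (idem k) (a5 τ hτ).2.1.2
    obtain ⟨n, n', b1, b2⟩ : ∃ n n', n < n' ∧ ∀ τ ∈ L, B (m + n) true τ ↔ B (m + n') true τ := by
      obtain ⟨n, n', b1, b2⟩ := Finite.exists_ne_map_eq_of_infinite
        fun n (τ : L.toFinset) => B (m + n) true τ
      have := fun τ hτ => (congrFun b2 ⟨τ, List.mem_toFinset.2 hτ⟩).to_iff
      exact b1.lt_or_gt.elim (fun k => ⟨_, _, k, this⟩) fun k => ⟨_, _, k, fun τ h => (this τ h).symm⟩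
    refine ⟨(m + n, m + n') :: P, m + n' + 1, List.forall_mem_cons.2 ⟨by omega, fun a ha => by
      have := a1 a ha; omega⟩, ?_, idem ((big_iff hp).2 ⟨L, a4, fun τ hτ => ⟨(a5 τ hτ).1, ?_⟩, a6⟩)⟩
    · simp only [List.forall_mem_cons, and_comm (b := ∀ a ∈ P, _)]
      rw [quarter (m := m) (E := fun Z => ∀ a ∈ P, Z a.1 = true ∨ Z a.2 = false)
        (fun Z Z' k c a ha => k _ (a1 a ha).1 ▸ k _ (a1 a ha).2 ▸ c a ha)
        (Nat.le_add_right _ _) (Nat.add_lt_add_left b1 _), pow_succ']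
      gcongr
    · have := fun ρ (k : τ <+: ρ) a ha => ((a5 τ hτ).2.2 a ha).imp (V.mono · k) (V.mono · k)
      rcases ((b0 _ τ hτ).imp_left (b2 τ hτ).2) with k | k <;>
        refine k.mono (fun _ k => k) (fun _ _ => le_rfl) fun ρ c d =>
          ⟨d.1, List.forall_mem_cons.2 ⟨?_, this ρ c⟩⟩
      exacts [.inl d.2, .inr d.2]

structure Cn (T : List ℕ → Prop) (p w : ℕ → ℕ) where
  σ : List ℕ
  S : List ℕ → Prop
  c : ℕ
  mem : T σ
  up : ∀ ρ τ, ρ <+: τ → S ρ → S τ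
  small : ¬ Big T (fun l => (c + 1) * p l) S σ
  le : ∀ l, σ.length ≤ l → (c + 1) * p l ≤ w l

theorem gm {w : ℕ → ℕ} (hT : RE T) (hp : CI (fun _ => false) p) (pos : ∀ l, 0 < p l)
    (bushy : ∀ ρ, T ρ → ∃ F : Finset ℕ, w ρ.length ≤ F.card ∧ ∀ a ∈ F, T (ρ ++ [a]))
    (room : ∀ c, ∀ᶠ l in atTop, c * p l ≤ w l) (c0 : Cn T p w) :
    ∃ g, (∀ M, ∃ τ, T τ ∧ ¬ c0.S τ ∧ M ≤ τ.length ∧ Pf τ g) ∧ ∀ R, CI (gf g) R → ¬ Rand R := by
  classical
  have long : ∀ (c : Cn T p w) n, ∃ τ, c.σ <+: τ ∧ T τ ∧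
      ¬ Big T (fun l => (c.c + 1) * p l) c.S τ ∧ n ≤ τ.length := fun c n => by
    induction n with
    | zero => exact ⟨_, List.prefix_refl _, c.mem, c.small, Nat.zero_le _⟩
    | succ n ih =>
      obtain ⟨τ, h1, h2, h3, h4⟩ := ih
      obtain ⟨F, h5, h6⟩ := bushy τ h2
      obtain ⟨a, ha⟩ := not_forall.1 fun k => h3 (.step F ((c.le _ h1.length_le).trans h5) h6 k)
      obtain ⟨ha, hb⟩ := Classical.not_imp.1 ha
      exact ⟨_, h1.trans (List.prefix_append _ _), h6 a ha, hb, by simpa⟩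
  have hV := V_re
  have tb : Primrec fun z : ℕ × ℕ => Fn.tb z.1 z.2 := Fn.tb_prim
  have h1 := big_re (α := ℕ × ℕ × List (ℕ × ℕ)) (T := fun _ => T) (S := fun z => Ev z.2.1 z.2.2)
    (p := fun z l => (z.1 + 1) * p l) (r_comp hT .snd)
    (RE.un (RE.re (by unfold Ev; generalize V = V' at hV; fun_prop)))
    (RI.re (RI.un (by fun_prop))) (fun _ _ _ => Iff.rfl) fun _ l => Nat.mul_pos (by omega) (pos l)
  obtain ⟨Q, q1, q2, q3, q4⟩ := unif (Q := fun (z : ℕ × ℕ × ℕ) (y : List (ℕ × ℕ) × ℕ) =>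
    (∀ a ∈ y.1, a.1 < y.2 ∧ a.2 < y.2) ∧ 2 ^ (z.2.1 + z.2.2 + 1) * ((range (2 ^ y.2)).filter
      fun v => ∀ a ∈ y.1, Fn.tb v a.1 = true ∨ Fn.tb v a.2 = false).card ≤ 2 ^ y.2 ∧
        Big T (fun l => (z.2.1.unpair.1 + 1) * p l) (Ev z.1 y.1)
          ((decode z.2.1.unpair.2).getD [])) (RE.un (RE.re (r_and (by fun_prop) (r_and (by fun_prop)
      (r_pw (r_comp (f := fun x : (ℕ × ℕ × ℕ) × List (ℕ × ℕ) × ℕ => ((x.1.2.1.unpair.1, x.1.1, x.2.1),
        (decode x.1.2.1.unpair.2).getD [])) h1 (by fun_prop)))))))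
  have h2 : ∀ (u : ℕ) (c : Cn T p w), ∃ d : Cn T p w, (c.σ <+: d.σ ∧ ∀ τ, c.S τ → d.S τ) ∧
      u < d.σ.length ∧ ((∃ n : ℕ, ∀ τ, ∀ b : Bool, V (u.unpair.1.pair (encode (n, b))) τ → d.S τ) ∨
        ∃ j y, Q (u.unpair.1, j, u.unpair.2) y ∧ Ev u.unpair.1 y.1 d.σ) := fun u c => by
    obtain ⟨N, hN⟩ := eventually_atTop.1 (room (3 * c.c + 2 + 1))
    obtain ⟨σ, a1, a2, a3, a4⟩ := long c (N + u + 1)
    by_cases h : ∃ n : ℕ, ∃ τ, σ <+: τ ∧ T τ ∧ ¬ Big T (fun l => (c.c + 1) * p l + (c.c + 1) * p l +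
      (c.c + 1) * p l) (fun ρ => c.S ρ ∨ V (u.unpair.1.pair (encode (n, true))) ρ ∨
        V (u.unpair.1.pair (encode (n, false))) ρ) τ
    · obtain ⟨n, τ, b1, b2, b3⟩ := h
      have := b1.length_le
      exact ⟨⟨τ, _, 3 * c.c + 2, b2, fun _ _ k c' => c'.imp (c.up _ _ k)
        (Or.imp (V.mono · k) (V.mono · k)), fun k => b3 (k.mono (fun _ k => k)
          (fun _ _ => le_of_eq (by ring)) fun _ _ k => k), fun l hl => hN l (by omega)⟩,
        ⟨a1.trans b1, fun _ => .inl⟩, by dsimp only; omega, .inl ⟨n, fun τ b k => .inr (by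
          cases b; exacts [.inr k, .inl k])⟩⟩
    · push Not at h
      obtain ⟨i, hi⟩ := exists_pow_lt_of_lt_one (show (0 : ℝ) < 2⁻¹ ^ (c.c.pair (encode σ) +
        u.unpair.2 + 1) by positivity) (show (3 / 4 : ℝ) < 1 by norm_num)
      obtain ⟨P, m, b1, b2, b3⟩ := shrink (fun l => Nat.mul_pos c.c.succ_pos (pos l)) a2 a3 h i
      obtain ⟨y, hy⟩ := q4 (u.unpair.1, c.c.pair (encode σ), u.unpair.2) (P, m) ⟨b1, by
        have := (Fn.mu_loc_le (s := m) (S := fun Z => ∀ a ∈ P, Z a.1 = true ∨ Z a.2 = false)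
          (fun Z Z' k c a ha => k _ (b1 a ha).1 ▸ k _ (b1 a ha).2 ▸ c a ha)
          (2 ^ (c.c.pair (encode σ) + u.unpair.2 + 1)) (by positivity)).1
          ((ENNReal.toReal_le_toReal (measure_ne_top _ _) (by simp)).1
            ((b2.trans hi.le).trans_eq (by simp)))
        exact this, by
          simpa using b3.mono (fun _ k => k) (fun _ _ => le_rfl) fun _ _ k => k.2⟩
      have b4 := (q2 _ _ hy).2.2
      simp only [Nat.unpair_pair, encodek, Option.getD_some] at b4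
      obtain ⟨τ, b5, b6, b7, b8⟩ := b4.meet a2 a3
      have := b5.length_le
      exact ⟨⟨τ, c.S, c.c, b6, c.up, b8, fun l hl => c.le l ((a1.trans b5).length_le.trans hl)⟩,
        ⟨a1.trans b5, fun _ k => k⟩, by dsimp only; omega, .inr ⟨_, y, hy, b7⟩⟩
  choose F h2 h3 h4 using h2
  let z : ℕ → Cn T p w := fun n => Nat.rec c0 F n
  have h5 : ∀ n k τ, (z n).S τ → (z (n + k)).S τ := fun n k τ a => by
    induction k with
    | zero => exact a
    | succ k ih => exact (h2 _ _).2 _ ih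
  have h6 : ∀ n, n ≤ (z n).σ.length := fun n => by
    cases n with
    | zero => exact Nat.zero_le _
    | succ n => exact h3 n _
  obtain ⟨g, -, hg⟩ := chain (fun n => (z n).σ) (fun n => (h2 n _).1) h6
  refine ⟨g, fun M => ⟨_, (z (0 + M)).mem, fun k => (z _).small (.base (h5 0 M _ k)),
    by simpa using h6 M, hg _⟩, fun R hR hr => ?_⟩
  obtain ⟨e, he⟩ := hR.ri.idx
  obtain ⟨k, hk⟩ := hr (fun k ρ => ∃ j y, Q (e, j, k) y ∧ y.2 ≤ ρ.length ∧
    ∀ a ∈ y.1, ρ.getD a.1 false = true ∨ ρ.getD a.2 false = false) (RE.re (by fun_prop)) fun k => by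
    refine (measure_mono (t := ⋃ j, ⋃ y, ⋃ _ : Q (e, j, k) y,
      {Z | ∀ a ∈ y.1, Z a.1 = true ∨ Z a.2 = false}) ?_).trans ((measure_iUnion_le _).trans
        ((ENNReal.tsum_le_tsum (g := fun j => 2⁻¹ ^ k * 2⁻¹ ^ (j + 1)) fun j => ?_).trans_eq ?_))
    · rintro Y ⟨m, j, y, b1, b2, b3⟩
      simp only [Set.mem_iUnion]
      refine ⟨j, y, b1, fun a ha => ?_⟩
      have b4 := (q2 _ _ b1).1 a ha
      rw [pre_len] at b2
      simpa [pre, b4.1.trans_le b2, b4.2.trans_le b2] using b3 a ha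
    · by_cases b : ∃ y, Q (e, j, k) y
      · obtain ⟨y, b⟩ := b
        have b1 := q2 _ _ b
        refine (measure_mono (Set.iUnion₂_subset fun y' b' => ?_)).trans (((Fn.mu_loc_le
          (S := fun Z => ∀ a ∈ y.1, Z a.1 = true ∨ Z a.2 = false) (fun Z Z' k c a ha =>
            k _ (b1.1 a ha).1 ▸ k _ (b1.1 a ha).2 ▸ c a ha) _ (by positivity)).2 b1.2.1).trans_eq ?_)
        · rw [q3 _ _ _ b b']
        · rw [← pow_add, ← ENNReal.inv_pow]; push_cast; congr 2; omega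
      · simp [not_exists.1 b]
    · rw [ENNReal.tsum_mul_left, ENNReal.tsum_geometric_add_one]
      simp [ENNReal.inv_mul_cancel]
  have := h4 (e.pair k) (z (e.pair k))
  rw [Nat.unpair_pair] at this
  obtain ⟨n, b1⟩ | ⟨j, y, b1, b2⟩ := this
  · obtain ⟨s, hs⟩ := V.complete ((he (n, R n)).2 rfl)
    have b2 := hg (e.pair k + 1 + s)
    exact (z _).small (.base ((z (e.pair k + 1 + s)).up _ _ (List.prefix_refl _) (h5 _ s _
      (b1 _ _ (hs _ ((Nat.le_add_left _ _).trans (h6 _)) b2)))))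
  · refine hk y.2 ⟨j, y, b1, (pre_len _ _).ge, fun a ha => ?_⟩
    have b4 := (q2 _ _ b1).1 a ha
    simpa [pre, b4.1, b4.2] using (b2 a ha).imp (fun c => (he _).1 (c.sound (hg (e.pair k + 1))))
      fun c => (he _).1 (c.sound (hg (e.pair k + 1)))

end Pool.Agent.H.MP_b653e9_lc
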