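import Pool.Agent.H.MP_b653e9_lc.A

set_option autoImplicit false

/-! Almost incompressible sequences. -/

namespace Pool.Agent.H.MP_b653e9_lc

open Filter Pool.Agent.H.MP_fa2eca_lc Pool.Agent.Lib.helper21 Encodable MeasureTheory
open Pool.Agent.Lib.helper21.PR Finset Pool.Agent.Lib.helper21.ML Pool.Agent.H.MP_99e598_lc
open scoped ENNReal

attribute [local irreducible] Primrec Computable

variable {K : List Bool → ℕ}

theorem nu (kr : ∀ F : Finset (List Bool), ∑ x ∈ F, (1 / 2 : ℝ) ^ K x ≤ 1) :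
    ∃ ν : Measure (ℕ → Bool), ν Set.univ < 1 ∧ ∀ ρ σ c, K ρ + c ≤ ρ.length → ρ <+: σ →
      2 ^ c * 2⁻¹ ^ σ.length ≤ ν (cyl σ) := by
  classical
  have h1 : ∑' x, (2⁻¹ : ℝ≥0∞) ^ K x ≤ 1 := ENNReal.tsum_eq_iSup_sum.trans_le (iSup_le fun F => by
    have := ENNReal.ofReal_le_one.2 (kr F)
    rw [ENNReal.ofReal_sum_of_nonneg fun _ _ => by positivity] at this
    simpa [ENNReal.ofReal_pow, ENNReal.ofReal_inv_of_pos, ENNReal.inv_pow] using this)
  have h2 : ∀ n, (2 : ℝ≥0∞) ^ n * 2⁻¹ ^ n = 1 := fun n => by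
    rw [← mul_pow, ENNReal.mul_inv_cancel (by simp) (by simp), one_pow]
  refine ⟨Measure.sum fun ρ => (if ρ = [] then 0 else 2 ^ ρ.length * 2⁻¹ ^ K ρ : ℝ≥0∞) •
    Fn.mu.restrict (cyl ρ), ?_, fun ρ σ c h3 h4 => ?_⟩
  · rw [ENNReal.tsum_eq_add_tsum_ite []] at h1
    rw [Measure.sum_apply _ .univ]
    refine lt_of_lt_of_le ?_ h1
    simp only [Measure.smul_apply, Measure.restrict_apply_univ, mu_cyl, smul_eq_mul, ite_mul,
      zero_mul, mul_right_comm _ ((2⁻¹ : ℝ≥0∞) ^ K _), h2, one_mul]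
    rw [add_comm]
    refine (tsum_congr fun i => ?_).trans_lt (ENNReal.lt_add_right
      (ne_top_of_le_ne_top ENNReal.one_ne_top (le_add_self.trans h1)) (by simp))
    split_ifs <;> rfl
  · have h5 : ρ ≠ [] := by
      rintro rfl
      have := kr {[], [true]}
      rw [sum_pair (by simp), show K [] = 0 by simp at h3; omega] at this
      linarith [show (0 : ℝ) < (1 / 2) ^ K [true] by positivity]
    refine le_trans ?_ (Measure.le_sum _ ρ _)
    obtain ⟨d, hd⟩ := Nat.exists_eq_add_of_le h3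
    rw [Measure.smul_apply, Measure.restrict_eq_self _ (t := cyl ρ) fun Z hZ => of_pre
      (n := σ.length) (by rwa [show pre Z σ.length = σ from hZ]), mu_cyl, if_neg h5, hd, pow_add,
      pow_add, smul_eq_mul]
    gcongr
    rw [mul_right_comm, mul_right_comm _ (2 ^ c), h2, one_mul]
    exact le_mul_of_one_le_right' (one_le_pow₀ (by simp))

theorem cnt (ν : Measure (ℕ → Bool)) {y : ℕ} {F : Finset ℕ} {A : Set (ℕ → Bool)} {d : ℝ≥0∞}
    (h : ∀ a ∈ F, a < 2 ^ y ∧ cyl (pre (Fn.tb a) y) ⊆ A ∧ d ≤ ν (cyl (pre (Fn.tb a) y))) :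
    F.card * d ≤ ν A := by
  refine le_trans ?_ (measure_mono (Set.iUnion₂_subset fun a ha => (h a ha).2.1))
  rw [measure_biUnion_finset _ fun _ _ => cyl_meas _, ← nsmul_eq_mul]
  · exact card_nsmul_le_sum _ _ _ fun a ha => (h a ha).2.2
  · refine fun a ha b hb e => Set.disjoint_left.2 fun Z h1 h2 => e ?_
    simp only [cyl, Set.mem_setOf_eq, pre_len] at h1 h2
    rw [← Fn.cd_tb (h a ha).1, ← Fn.cd_tb (h b hb).1]
    exact Fn.cd_congr fun i hi => List.map_inj_left.1 (h1.symm.trans h2) i (List.mem_range.2 hi)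

theorem part1 (kr : ∀ F : Finset (List Bool), ∑ x ∈ F, (1 / 2 : ℝ) ^ K x ≤ 1)
    {h : ℕ → ℕ} (hc : Computable h)
    (hm : Monotone h) (hu : ∀ c, ∃ n, c ≤ h n) :
    ∃ X, (∀ n, n < K (pre X n) + h n) ∧ ∀ R, CI X R → ¬ Rand R := by
  classical
  obtain ⟨ν, n1, n2⟩ := nu kr
  have h0 := Computable.ci (Y := fun _ => false) hc
  obtain ⟨f, f1, f2⟩ := RI.choice (Y := fun _ => false) (R := fun (z : ℕ × ℕ) n =>
    z.2 + z.1 + 1 ≤ n ∧ ∑ i ∈ range (z.1 + 2), i ≤ h n) (by fun_prop) fun z =>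
      let ⟨n, hn⟩ := hu (∑ i ∈ range (z.1 + 2), i)
      ⟨n + (z.2 + z.1 + 1), by omega, hn.trans (hm (by omega))⟩
  obtain ⟨y, y0, y1, y2, y3⟩ : ∃ y : ℕ → ℕ, CI (fun _ => false) y ∧ y 0 = 0 ∧
      (∀ l, y l + l + 1 ≤ y (l + 1)) ∧ ∀ l, ∑ i ∈ range (l + 1), i ≤ h (y l) :=
    ⟨fun l => Nat.rec 0 (fun l v => f (l, v)) l, by fun_prop, rfl, fun l => (f2 (l, _)).1, fun l => by
      cases l with
      | zero => simp
      | succ l => exact (f2 (l, _)).2⟩
  have tb : Primrec fun z : ℕ × ℕ => Fn.tb z.1 z.2 := Fn.tb_prim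
  let T : List ℕ → Prop := fun τ => ∀ i < τ.length,
    τ.getD i 0 < 2 ^ y (i + 1) ∧ τ.getD i 0 % 2 ^ y i = (0 :: τ).getD i 0
  let S : List ℕ → Prop := fun τ => ∃ i < τ.length, ∃ n, y i ≤ n ∧ n ≤ y (i + 1) ∧
    K (pre (Fn.tb (τ.getD i 0)) n) + h n ≤ n
  have e1 : ∀ (τ : List ℕ) a, (τ ++ [a]).getD τ.length 0 = a := by simp
  have e2 : ∀ (τ : List ℕ) a i, i ≤ τ.length → (0 :: (τ ++ [a])).getD i 0 = (0 :: τ).getD i 0 :=
    fun τ a i hi => List.getD_append (0 :: τ) _ _ _ (by simp; omega)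
  have h1 : ∀ τ, Big T (fun l => (0 + 1) * 2 ^ (y (l + 1) - y l - l)) S τ → S τ ∨
      2 ^ (∑ i ∈ range τ.length, i) * 2⁻¹ ^ y τ.length ≤
        ν (cyl (pre (Fn.tb ((0 :: τ).getD τ.length 0)) (y τ.length))) := fun τ k => by
    induction k with
    | base k => exact .inl k
    | @step τ F a1 a2 _ ih =>
      refine (em _).imp_right fun c => le_trans ?_ (cnt ν (y := y (τ.length + 1)) (F := F)
        (d := 2 ^ (∑ i ∈ range (τ.length + 1), i) * 2⁻¹ ^ y (τ.length + 1)) fun a ha => ?_)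
      · obtain ⟨d, hd⟩ := Nat.exists_eq_add_of_le ((Nat.le_succ _).trans (y2 τ.length))
        rw [hd, add_assoc, Nat.add_sub_cancel_left, Nat.add_sub_cancel_left, zero_add, one_mul] at a1
        replace a1 : (2 : ℝ≥0∞) ^ d ≤ F.card := by exact_mod_cast a1
        rw [hd, sum_range_succ]
        refine le_trans (le_of_eq ?_) (mul_le_mul_left a1 _)
        have : ((2 : ℝ≥0∞) * 2⁻¹) ^ (τ.length + d) = 1 := by
          rw [ENNReal.mul_inv_cancel (by simp) (by simp), one_pow]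
        refine (mul_one _).symm.trans ((congrArg _ this.symm).trans ?_)
        ring
      · have b := a2 a ha τ.length (by simp)
        rw [e1, e2 _ _ _ le_rfl] at b
        refine ⟨b.1, fun Z hZ => of_pre (X := Z) (n := y (τ.length + 1)) ?_, ?_⟩
        · rw [cyl, Set.mem_setOf_eq, pre_len] at hZ
          rw [hZ, ← b.2, pre_congr (Y := Fn.tb a) fun i hi => by
            simp [Fn.tb, Nat.testBit_mod_two_pow, hi]]
          exact pre_pre _ (by have := y2 τ.length; omega)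
        · rcases ih a ha with ⟨i, b1, n, b2, b3, b4⟩ | k
          · rcases (show i ≤ τ.length by simp at b1; omega).eq_or_lt with rfl | d
            · rw [e1] at b4
              simpa [pre_len] using n2 _ _ _ ((Nat.add_le_add_left ((y3 _).trans (hm b2)) _).trans
                (b4.trans (pre_len _ _).ge)) (pre_pre _ b3)
            · exact absurd ⟨i, d, n, b2, b3, List.getD_append _ _ _ _ d ▸ b4⟩ c
          · simpa using k
  obtain ⟨g, g1, g2⟩ := gm (T := T) (p := fun l => 2 ^ (y (l + 1) - y l - l))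
    (w := fun l => 2 ^ (y (l + 1) - y l)) (RI.re (RI.un (by fun_prop))) (by fun_prop)
    (fun _ => by positivity) (fun ρ hρ => by
      have a : (0 :: ρ).getD ρ.length 0 < 2 ^ y ρ.length := by
        obtain rfl | ⟨τ, a, rfl⟩ := ρ.eq_nil_or_concat'
        · simp
        · simpa using (hρ τ.length (by simp)).1
      refine ⟨(range (2 ^ (y (ρ.length + 1) - y ρ.length))).image fun b =>
        (0 :: ρ).getD ρ.length 0 + 2 ^ y ρ.length * b, by
          rw [card_image_of_injective _ fun a b e => by simpa using e, card_range],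
        forall_mem_image.2 fun b hb i hi => ?_⟩
      rcases (show i ≤ ρ.length by simp at hi; omega).eq_or_lt with rfl | d
      · rw [e1, e2 _ _ _ le_rfl, Nat.add_mul_mod_self_left, Nat.mod_eq_of_lt a]
        obtain ⟨d, hd⟩ := Nat.exists_eq_add_of_le (show y ρ.length ≤ y (ρ.length + 1) by
          have := y2 ρ.length; omega)
        rw [hd, Nat.add_sub_cancel_left, mem_range] at hb
        rw [hd, pow_add]
        exact ⟨by nlinarith, rfl⟩
      · rw [e2 _ _ _ d.le, List.getD_append _ _ _ _ d]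
        exact hρ i d)
    (fun c => (eventually_ge_atTop c).mono fun l hl => by
      refine (Nat.mul_le_mul_right _ (hl.trans Nat.lt_two_pow_self.le)).trans_eq ?_
      have := y2 l
      rw [← pow_add]; congr 1; omega)
    { σ := [], S := S, c := 0, mem := by simp [T]
      up := by
        rintro ρ _ ⟨τ, rfl⟩ ⟨i, hi, k⟩
        exact ⟨i, by simp; omega, (List.getD_append _ _ _ _ hi).symm ▸ k⟩
      small := fun k => (h1 _ k).elim (by simp [S]) fun k => by
        simpa [y1] using k.trans_lt ((measure_mono (Set.subset_univ _)).trans_lt n1)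
      le := fun l _ => by simpa using Nat.pow_le_pow_right (by omega) (Nat.sub_le _ _) }
  have h2 := (strictMono_nat_of_lt_succ fun l => show y l < y (l + 1) by have := y2 l; omega)
  have h3 : ∀ i d, ∀ j < y (i + 1), Fn.tb (g (i + d)) j = Fn.tb (g i) j := fun i d j hj => by
    induction d with
    | zero => rfl
    | succ d ih =>
      obtain ⟨τ, a1, -, a2, a3⟩ := g1 (i + d + 2)
      have := (a1 (i + d + 1) (by omega)).2
      rw [List.getD_cons_succ, a3 _ (by omega), a3 _ (by omega)] at this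
      rw [← ih, ← this]
      simp [Fn.tb, Nat.testBit_mod_two_pow, ← add_assoc,
        hj.trans_le (h2.monotone (show i + 1 ≤ i + d + 1 by omega))]
  refine ⟨fun j => Fn.tb (g j) j, fun n => not_le.1 fun c => ?_, fun R hR => g2 R (hR.trans ?_)⟩
  · have a0 : ∃ i, n ≤ y (i + 1) := ⟨n, (Nat.le_succ _).trans (h2.id_le _)⟩
    obtain ⟨τ, -, a1, a2, a3⟩ := g1 (Nat.find a0 + 1)
    refine a1 ⟨_, a2, n, ?_, Nat.find_spec a0, ?_⟩
    · rcases e : Nat.find a0 with _ | i
      · omega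
      · exact (not_le.1 (Nat.find_min a0 (m := i) (by omega))).le
    · rwa [a3 _ a2, pre_congr (Y := fun j => Fn.tb (g j) j) fun j hj =>
        (h3 _ j j (hj.trans_le (Nat.find_spec a0))).symm.trans
          (by rw [add_comm]; exact h3 j _ j (h2.id_le (j + 1)))]
  · have := ci_gf g
    generalize gf g = A at this
    fun_prop

theorem schnorr (code : ∀ R : List Bool → ℕ → Prop, REPred (fun p : List Bool × ℕ => R p.1 p.2) →
      (∀ F : Finset (List Bool × ℕ), (∀ p ∈ F, R p.1 p.2) → ∑ p ∈ F, (1 / 2 : ℝ) ^ p.2 ≤ 1) →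
        ∃ c, ∀ x l, R x l → K x ≤ l + c) {X : ℕ → Bool} {c : ℕ}
    (h : ∀ n, n % 2 = 0 → n ≤ K (pre X n) + c) : Rand X := fun W hW hm => by
  classical
  by_contra! hX
  obtain ⟨N, h1, h2, h3, h4⟩ := re_bool hW
  let A : ℕ → List Bool → Prop := fun n x =>
    (x.length % 2 = 0 ∧ ∃ i < x.length, N (n, x.take i) x.length) ∧
      ∀ s < x.length, ¬ (s % 2 = 0 ∧ ∃ i < s, N (n, x.take i) s)
  have h5 : ∀ n (F : Finset (List Bool)), (∀ x ∈ F, A n x) →
      ∑ x ∈ F, (2⁻¹ : ℝ≥0∞) ^ x.length ≤ 2⁻¹ ^ n := fun n F hF => by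
    simp only [← mu_cyl]
    rw [← measure_biUnion_finset _ fun _ _ => cyl_meas _]
    · refine (measure_mono (Set.iUnion₂_subset fun x hx Z hZ => ?_)).trans (hm n)
      obtain ⟨i, a, b⟩ := (hF x hx).1.2
      exact ⟨i, by rw [← pre_take Z a.le, show pre Z x.length = x from hZ]; exact h2 _ _ b⟩
    · have : ∀ x ∈ F, ∀ y ∈ F, ∀ Z, pre Z x.length = x → pre Z y.length = y →
          ¬ x.length < y.length := fun x hx y hy Z a b d => (hF y hy).2 _ d
        ((hF x hx).1.imp_right fun k => k.imp fun i k => ⟨k.1, by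
          rw [← b, pre_take Z (k.1.trans d).le, ← pre_take Z k.1.le, a]; exact k.2⟩)
      exact fun x hx y hy e => Set.disjoint_left.2 fun Z a b => e (by
        rw [← show pre Z x.length = x from a, ← show pre Z y.length = y from b, le_antisymm
          (not_lt.1 (this y hy x hx Z b a)) (not_lt.1 (this x hx y hy Z a b))])
  obtain ⟨d, hd⟩ := code (fun x l => ∃ n, A (2 * n + 1) x ∧ l + n = x.length)
    (RE.re (by unfold A; fun_prop)) fun F hF => by
      choose! g g1 g2 using hF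
      rw [← sum_fiberwise_of_maps_to (g := g) fun p => mem_image_of_mem _]
      refine (sum_le_sum fun j _ => ?_).trans (((summable_geometric_two' 1).sum_le_tsum _
        fun _ _ => by positivity).trans_eq (tsum_geometric_two' 1))
      have a := ENNReal.toReal_mono (by simp) (h5 (2 * j + 1) ((F.filter (g · = j)).image Prod.fst)
        (forall_mem_image.2 fun p hp => (mem_filter.1 hp).2 ▸ g1 p (mem_filter.1 hp).1))
      rw [sum_image fun p hp q hq e => Prod.ext e (by
        have a := g2 p (mem_filter.1 hp).1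
        have b := g2 q (mem_filter.1 hq).1
        rw [(mem_filter.1 hp).2] at a
        rw [(mem_filter.1 hq).2, ← e] at b
        omega), ENNReal.toReal_sum fun _ _ => by simp, sum_congr rfl (g := fun p =>
          (1 / 2) ^ p.2 * (1 / 2) ^ j) fun p hp => by
            rw [← g2 p (mem_filter.1 hp).1, (mem_filter.1 hp).2]; simp [pow_add], ← sum_mul] at a
      rw [← le_div_iff₀ (by positivity)] at a
      refine a.trans_eq ?_
      simp [pow_succ, two_mul, pow_add]
      field_simp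
  obtain ⟨m, hm⟩ := hX (2 * (c + d + 1) + 1)
  obtain ⟨t, ht⟩ := h4 (_, _) hm
  have a : ∃ s, s % 2 = 0 ∧ ∃ i < s, N (2 * (c + d + 1) + 1, pre X i) s :=
    ⟨2 * (m + t + 1), by omega, m, by omega, h3 _ _ _ (by omega) ht⟩
  have b : A (2 * (c + d + 1) + 1) (pre X (Nat.find a)) := by
    simp only [A, pre_len]
    obtain ⟨k0, i, k1, k2⟩ := Nat.find_spec a
    exact ⟨⟨k0, i, k1, (pre_take X k1.le).symm ▸ k2⟩, fun s hs ⟨k0, i, k1, k2⟩ =>
      Nat.find_min a hs ⟨k0, i, k1, pre_take X (k1.trans hs).le ▸ k2⟩⟩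
  have e := h5 _ {pre X (Nat.find a)} fun x hx => mem_singleton.1 hx ▸ b
  rw [sum_singleton, pre_len, ← ENNReal.inv_pow, ← ENNReal.inv_pow, ENNReal.inv_le_inv] at e
  replace e := (Nat.pow_le_pow_iff_right one_lt_two).1 (by exact_mod_cast e)
  have := hd (pre X (Nat.find a)) (Nat.find a - (c + d + 1)) ⟨_, b, by rw [pre_len]; omega⟩
  have := h _ (Nat.find_spec a).1
  omega

theorem part2 (kr : ∀ F : Finset (List Bool), ∑ x ∈ F, (1 / 2 : ℝ) ^ K x ≤ 1)
    (re : REPred fun p : List Bool × ℕ => K p.1 ≤ p.2)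
    (code : ∀ R : List Bool → ℕ → Prop, REPred (fun p : List Bool × ℕ => R p.1 p.2) →
      (∀ F : Finset (List Bool × ℕ), (∀ p ∈ F, R p.1 p.2) → ∑ p ∈ F, (1 / 2 : ℝ) ^ p.2 ≤ 1) →
        ∃ c, ∀ x l, R x l → K x ≤ l + c) : ∃ h : ℕ → ℕ, Monotone h ∧ (∀ c, ∃ n, c ≤ h n) ∧
      ∀ X, (∀ n, n < K (pre X n) + h n) → ∃ R, CI X R ∧ Rand R := by
  classical
  obtain ⟨ν, n1, n2⟩ := nu kr
  obtain ⟨N, h1, h2, h3, h4⟩ := re_bool re
  obtain ⟨R, y, y1, y2, y3⟩ := path (R := fun s σ => ∀ i < σ.length + 1, ¬ N (σ.take i, i) s)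
    (pred (by fun_prop)) (fun s s' σ ρ a b i hi c => b i (by simp; omega) (by
      rw [List.take_append_of_le_length (by omega)]; exact h3 _ _ _ a c)) fun s => by
    by_contra! c
    refine (cnt ν (y := s) (F := range (2 ^ s)) (A := Set.univ) (d := 2 ^ 0 * 2⁻¹ ^ s)
      fun a ha => ⟨mem_range.1 ha, Set.subset_univ _, ?_⟩).not_gt (n1.trans_eq ?_)
    · obtain ⟨i, a1, a2⟩ := c _ (pre_len (Fn.tb a) s)
      simpa [pre_len] using n2 _ _ 0 ((h2 _ _ a2).trans (by simp; omega)) (List.take_prefix i _)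
    · simp [← mul_pow, ENNReal.mul_inv_cancel]
  have hR : Rand R := schnorr code (c := 0) fun n _ => le_of_not_gt fun c => by
    obtain ⟨t, ht⟩ := h4 (pre R n, n) c.le
    exact y3 t n n (by simp [pre_len]) (by rwa [pre_take R le_rfl])
  choose m hm using fun n => eventually_atTop.1 (y2 n)
  have h5 : ∀ n, ∃ c, n < ∑ i ∈ range (c + 1), (m i + 1) := fun n => ⟨n, by
    simpa using card_nsmul_le_sum (range (n + 1)) (fun i => m i + 1) 1 fun _ _ => by omega⟩
  refine ⟨fun n => Nat.find (h5 n), fun a b e => Nat.find_mono fun _ k => e.trans_lt k,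
    fun c => ⟨∑ i ∈ range (c + 1), (m i + 1), (Nat.le_find_iff _ _).2 fun k hk =>
      (sum_le_sum_of_subset (range_mono (by omega))).not_gt⟩, fun X hX => ?_⟩
  have hs := ci_self X
  by_cases c : ∃ c, ∀ n, n ≤ K (pre X n) + c
  · exact ⟨X, hs, schnorr code fun n _ => c.choose_spec n⟩
  push Not at c
  obtain ⟨g, g1, g2⟩ := RI.choice (Y := X) (R := fun c n => ∃ k t, N (pre X n, k) t ∧ k + c < n)
    (by fun_prop) fun a => let ⟨n, hn⟩ := c a; let ⟨t, ht⟩ := h4 (pre X n, _) le_rfl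
      ⟨n, _, t, ht, hn⟩
  replace y1 : Primrec fun z : ℕ × ℕ => y z.1 z.2 := y1
  refine ⟨R, CI.of_eq (f := fun n => y (g n) n) (by fun_prop) fun n => hm n _ ?_, hR⟩
  obtain ⟨k, t, a1, a2⟩ := g2 n
  have a3 : K (pre X (g n)) ≤ k := h2 _ _ a1
  have a4 : g n < K (pre X (g n)) + Nat.find (h5 (g n)) := hX (g n)
  have a5 := not_lt.1 (Nat.find_min (h5 (g n)) (m := n) (by omega))
  rw [sum_range_succ] at a5
  omega

end Pool.Agent.H.MP_b653e9_lc
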